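import Pool.Agent.N139.AS.Stm

/-!
# Project AS (helper139), part EX: finite sets on which `hh` is close to the identity and `uu` has
few fixed points
-/

set_option autoImplicit false

namespace Pool.Agent.N935.AS

open Finset
open Pool.Agent.N139.AS

noncomputable section

/-- the sign of an element of `ℤ/2` -/
def sg (p : ℕ) (e : ZMod 2) : ZMod p := if e = 0 then 1 else -1

theorem sg_add (p : ℕ) (e e' : ZMod 2) : sg p (e + e') = sg p e * sg p e' := by
  have h : ∀ x : ZMod 2, x = 0 ∨ x = 1 := by decide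
  have h1 : (1 : ZMod 2) ≠ 0 := by decide
  have h2 : (1 + 1 : ZMod 2) = 0 := by decide
  unfold sg
  rcases h e with rfl | rfl <;> rcases h e' with rfl | rfl <;> simp [h2]

/-- the configuration -/
def bb (L : ℕ) (j : ℕ) (c : ZMod L) (k : ℤ) : ZMod 2 :=
  if ((k : ZMod L) - c - 1).val ≤ j then 0 else 1

theorem bb_shift (L j : ℕ) (c : ZMod L) (k : ℤ) : bb L j (c + 1) (k + 1) = bb L j c k := by
  unfold bb
  have : ((k + 1 : ℤ) : ZMod L) - (c + 1) - 1 = (k : ZMod L) - c - 1 := by
    push_cast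
    ring
  rw [this]

/-- the exponent of the character -/
def ep (L j : ℕ) (c : ZMod L) : Lam →ₗ[ZMod 2] ZMod 2 :=
  Finsupp.linearCombination (ZMod 2) (bb L j c)

theorem ep_shift (L j : ℕ) (c : ZMod L) (l : Lam) : ep L j (c + 1) (shL l) = ep L j c l := by
  unfold ep
  have h1 : shL l = Finsupp.equivMapDomain (Equiv.addRight (1 : ℤ)) l := rfl
  rw [h1, Finsupp.linearCombination_equivMapDomain]
  congr 2
  funext k
  exact bb_shift L j c k

theorem ep_lam (L j : ℕ) (c : ZMod L) (k : ℤ) : ep L j c (lam k) = bb L j c k := by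
  unfold ep lam
  rw [Finsupp.linearCombination_single, one_smul]

/-- the character -/
def chi (p L j : ℕ) (c : ZMod L) (l : Lam) : ZMod p := sg p (ep L j c l)

theorem chi_add (p L j : ℕ) (c : ZMod L) (l m : Lam) :
    chi p L j c (l + m) = chi p L j c l * chi p L j c m := by
  unfold chi
  rw [map_add, sg_add]

theorem chi_zero (p L j : ℕ) (c : ZMod L) : chi p L j c 0 = 1 := by
  unfold chi
  rw [map_zero]
  exact if_pos rfl

theorem chi_shift (p L j : ℕ) (c : ZMod L) (l : Lam) :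
    chi p L j (c + 1) (shL l) = chi p L j c l := by
  unfold chi
  rw [ep_shift]

/-- the evaluation -/
def ev (p L j : ℕ) (c : ZMod L) : (Lam →₀ ZMod p) →ₗ[ZMod p] ZMod p :=
  Finsupp.linearCombination (ZMod p) (chi p L j c)

theorem ev_trl (p L j : ℕ) (c : ZMod L) (l : Lam) (a : Lam →₀ ZMod p) :
    ev p L j c (trl p l a) = chi p L j c l * ev p L j c a := by
  unfold ev
  have h1 : trl p l a = Finsupp.equivMapDomain (Equiv.addLeft l) a := rfl
  rw [h1, Finsupp.linearCombination_equivMapDomain, Finsupp.linearCombination_apply,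
    Finsupp.linearCombination_apply, Finsupp.mul_sum]
  refine Finsupp.sum_congr fun y _ => ?_
  simp only [Function.comp_apply, Equiv.coe_addLeft, smul_eq_mul]
  rw [chi_add]
  ring

theorem ev_shift (p L j : ℕ) (c : ZMod L) (a : Lam →₀ ZMod p) :
    ev p L j (c + 1) (shA p a) = ev p L j c a := by
  unfold ev
  have h1 : shA p a = Finsupp.equivMapDomain shL.toEquiv a := rfl
  rw [h1, Finsupp.linearCombination_equivMapDomain]
  congr 2
  funext l
  exact chi_shift p L j c l

theorem ev_single (p L j : ℕ) (c : ZMod L) (l : Lam) :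
    ev p L j c (Finsupp.single l 1) = chi p L j c l := by
  unfold ev
  rw [Finsupp.linearCombination_single, one_smul]

/-- the finite set -/
abbrev XX (p L : ℕ) : Type := ZMod L × (Fin (L - 1) → ZMod p)

/-- the action of the wreath product -/
@[instance_reducible]
def act (p L : ℕ) : MulAction (NN p) (XX p L) where
  smul n x := (x.1, fun j => ev p L j x.1 n.a + chi p L j x.1 n.l * x.2 j)
  one_smul x := by
    refine Prod.ext rfl (funext fun j => ?_)
    show ev p L j x.1 (1 : NN p).a + chi p L j x.1 (1 : NN p).l * x.2 j = x.2 j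
    rw [NN.one_a, NN.one_l, map_zero, chi_zero, zero_add, one_mul]
  mul_smul n m x := by
    refine Prod.ext rfl (funext fun j => ?_)
    show ev p L j x.1 (n * m).a + chi p L j x.1 (n * m).l * x.2 j =
      ev p L j x.1 n.a + chi p L j x.1 n.l * (ev p L j x.1 m.a + chi p L j x.1 m.l * x.2 j)
    rw [NN.mul_a, NN.mul_l, map_add, ev_trl, chi_add]
    ring

/-- the homomorphism -/
def al (p L : ℕ) : NN p →* Equiv.Perm (XX p L) := @MulAction.toPermHom (NN p) (XX p L) _ (act p L)

theorem al_apply (p L : ℕ) (n : NN p) (x : XX p L) :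
    al p L n x = (x.1, fun j : Fin (L - 1) => ev p L j x.1 n.a + chi p L j x.1 n.l * x.2 j) := rfl

/-- the rotation -/
def rt (p L : ℕ) : Equiv.Perm (XX p L) := (Equiv.addRight (1 : ZMod L)).prodCongr (Equiv.refl _)

theorem rel (p L : ℕ) (n : NN p) : rt p L * al p L n = al p L ((SS p).σ n) * rt p L := by
  refine Equiv.ext fun x => ?_
  show (x.1 + 1, fun j : Fin (L - 1) => ev p L j x.1 n.a + chi p L j x.1 n.l * x.2 j) =
    (x.1 + 1, fun j : Fin (L - 1) => ev p L j (x.1 + 1) (shA p n.a) +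
      chi p L j (x.1 + 1) (shL n.l) * x.2 j)
  refine Prod.ext rfl (funext fun j => ?_)
  show _ = ev p L j (x.1 + 1) (shA p n.a) + chi p L j (x.1 + 1) (shL n.l) * x.2 j
  rw [ev_shift, chi_shift]

theorem ev_hh (p L j : ℕ) (c : ZMod L) : ev p L j c (hh p).a =
    (1 - chi p L j c (lam 0)) * (1 + chi p L j c (lam 1)) := by
  unfold hh
  simp only [map_sub, map_add, ev_single, chi_add, chi_zero]
  ring

theorem ev_uu (p L j : ℕ) (c : ZMod L) : ev p L j c (uu p).a =
    (1 + chi p L j c (lam 0)) * (1 - chi p L j c (lam 1)) := by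
  unfold uu
  simp only [map_sub, map_add, ev_single, chi_add, chi_zero]
  ring

theorem chi_lam (p L j : ℕ) (c : ZMod L) (k : ℤ) : chi p L j c (lam k) =
    if ((k : ZMod L) - c - 1).val ≤ j then 1 else -1 := by
  unfold chi sg
  rw [ep_lam]
  unfold bb
  by_cases h : ((k : ZMod L) - c - 1).val ≤ j
  · rw [if_pos h, if_pos rfl, if_pos h]
  · rw [if_neg h, if_neg h, if_neg (by decide)]

/-- the values at `0` and `1` -/
theorem val_pred {L : ℕ} (hL : 2 ≤ L) {c : ZMod L} (hc : c ≠ 0) :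
    1 ≤ (-c).val ∧ (-c).val < L ∧ (((0 : ℤ) : ZMod L) - c - 1).val = (-c).val - 1 ∧
      (((1 : ℤ) : ZMod L) - c - 1).val = (-c).val := by
  have : NeZero L := ⟨by omega⟩
  have : Fact (1 < L) := ⟨by omega⟩
  have h1 : 1 ≤ (-c).val := by
    rcases Nat.eq_zero_or_pos (-c).val with h | h
    · exact absurd ((ZMod.val_eq_zero (-c)).1 h) (neg_ne_zero.2 hc)
    · exact h
  refine ⟨h1, ZMod.val_lt _, ?_, ?_⟩
  · have e : ((0 : ℤ) : ZMod L) - c - 1 = -c - 1 := by push_cast; ring
    rw [e, ZMod.val_sub (by rw [ZMod.val_one]; exact h1), ZMod.val_one]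
  · congr 1
    push_cast
    ring

theorem ev_hh_zero (p : ℕ) {L : ℕ} (hL : 2 ≤ L) {c : ZMod L} (hc : c ≠ 0) (j : ℕ) :
    ev p L j c (hh p).a = 0 := by
  obtain ⟨h1, h2, h3, h4⟩ := val_pred hL hc
  rw [ev_hh, chi_lam, chi_lam, h3, h4]
  by_cases h : (-c).val - 1 ≤ j
  · rw [if_pos h]; ring
  · rw [if_neg (show ¬ (-c).val ≤ j by omega)]; ring

theorem ev_uu_ne (p : ℕ) [Fact p.Prime] (hp : p ≠ 2) {L : ℕ} (hL : 2 ≤ L) {c : ZMod L}
    (hc : c ≠ 0) : ∃ j : Fin (L - 1), ev p L j c (uu p).a ≠ 0 := by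
  obtain ⟨h1, h2, h3, h4⟩ := val_pred hL hc
  refine ⟨⟨(-c).val - 1, by omega⟩, ?_⟩
  rw [ev_uu, chi_lam, chi_lam, h3, h4, if_pos le_rfl,
    if_neg (show ¬ (-c).val ≤ (-c).val - 1 by omega)]
  have h5 : (2 : ZMod p) ≠ 0 := by
    intro h
    have h6 : ((2 : ℕ) : ZMod p) = 0 := by exact_mod_cast h
    rw [ZMod.natCast_eq_zero_iff] at h6
    exact hp ((Nat.prime_dvd_prime_iff_eq Fact.out Nat.prime_two).1 h6)
  have h6 : (1 + 1 : ZMod p) * (1 - -1) = 2 * 2 := by ring
  rw [h6]
  exact mul_ne_zero h5 h5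

theorem ct_le {p L : ℕ} [Fintype (XX p L)] [NeZero p] (hL : 2 ≤ L) (P : XX p L → Prop)
    (hP : ∀ x, P x → x.1 = 0) : (L : ℝ) * ct P ≤ Fintype.card (XX p L) := by
  classical
  have : NeZero L := ⟨by omega⟩
  have h1 : (univ.filter P).card ≤ p ^ (L - 1) := by
    calc (univ.filter P).card ≤ (univ : Finset (Fin (L - 1) → ZMod p)).card := by
          refine Finset.card_le_card_of_injOn (fun x => x.2) (fun _ _ => by simp) ?_
          intro x hx y hy hxy
          simp only [coe_filter, mem_univ, true_and, Set.mem_ofPred_eq] at hx hy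
          exact Prod.ext ((hP x hx).trans (hP y hy).symm) hxy
      _ = p ^ (L - 1) := by
          rw [Finset.card_univ, Fintype.card_fun, ZMod.card, Fintype.card_fin]
  have h2 : Fintype.card (XX p L) = L * p ^ (L - 1) := by
    rw [← Nat.card_eq_fintype_card, Nat.card_prod, Nat.card_fun, Nat.card_zmod, Nat.card_zmod,
      Nat.card_eq_fintype_card, Fintype.card_fin]
  have h3 : ct P ≤ ((p ^ (L - 1) : ℕ) : ℝ) := by
    unfold ct
    exact_mod_cast (by convert h1)
  rw [h2]
  push_cast at h3 ⊢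
  exact mul_le_mul_of_nonneg_left h3 (by positivity)

theorem t_EX : S_EX := by
  intro p _ hp L hL
  have hp0 : p ≠ 0 := (Fact.out : p.Prime).ne_zero
  have : NeZero p := ⟨hp0⟩
  have : NeZero L := ⟨by omega⟩
  obtain ⟨ψ, -, hψ⟩ := exists_lift (SS p) (al p L) (rt p L) (rel p L)
  refine ⟨XX p L, inferInstance, ⟨(0, fun _ => 0)⟩, ψ, ct_le hL _ fun x hx => ?_,
    ct_le hL _ fun x hx => ?_⟩
  · by_contra hc
    apply hx
    rw [hψ, al_apply]
    refine Prod.ext rfl (funext fun j => ?_)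
    show ev p L j x.1 (hh p).a + chi p L j x.1 (hh p).l * x.2 j = x.2 j
    have h1 : (hh p).l = 0 := rfl
    rw [ev_hh_zero p hL hc, h1, chi_zero, zero_add, one_mul]
  · by_contra hc
    obtain ⟨j, hj⟩ := ev_uu_ne p hp hL hc
    rw [hψ, al_apply] at hx
    have h1 : ev p L j x.1 (uu p).a + chi p L j x.1 (uu p).l * x.2 j = x.2 j :=
      congrFun (congrArg Prod.snd hx) j
    have h2 : (uu p).l = 0 := rfl
    rw [h2, chi_zero, one_mul] at h1
    apply hj
    linear_combination h1

end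

end Pool.Agent.N935.AS
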